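import Pool.Agent.N102.FL.Stm

/-!
# Project FL (helper102), part RANK (subtask 7618), by helper456: assembly of the rank theorem
-/

set_option autoImplicit false

universe u

namespace Pool.Agent.N456.FL

open Pool.Agent.N102.FL

theorem t_rank : S_PIV.{u} → S_ECH.{u} → S_LIFT.{u} → S_SPAN.{u} → S_RANK.{u} := by
  intro hPIV hECH hLIFT hSPAN p _ k κ _ _ _ _ _ T _ e R Ix fx cx l z hSat hSp hz hv
  classical
  let idx : Option T → ℕ := fun o => (Fintype.equivFin (Option T) o : ℕ)
  let key : Option T → ℤ ×ₗ (ℕ∞ ×ₗ ℕ) := fun o => toLex (wt p e l o, toLex (lev e o, idx o))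
  have hidx : Function.Injective idx := fun a b h =>
    (Fintype.equivFin (Option T)).injective (Fin.ext h)
  have hinj : Function.Injective key := by
    intro a b h
    have h1 := congrArg ofLex h
    have h2 := congrArg Prod.snd h1
    have h3 := congrArg ofLex h2
    have h4 := congrArg Prod.snd h3
    exact hidx h4
  have hkey : ∀ o o', key o ≤ key o' → wt p e l o < wt p e l o' ∨
      (wt p e l o = wt p e l o' ∧ lev e o ≤ lev e o') := by
    intro o o' h
    rcases (Prod.Lex.le_iff).1 h with h1 | ⟨h1, h2⟩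
    · exact Or.inl h1
    · right
      refine ⟨h1, ?_⟩
      rcases (Prod.Lex.le_iff).1 h2 with h3 | ⟨h3, -⟩
      · exact h3.le
      · exact h3.le
  obtain ⟨P, hPc, hP⟩ := hPIV k (Option T) (ℤ ×ₗ (ℕ∞ ×ₗ ℕ)) key hinj R
  choose c hcR hco hc0 using hP
  have hlift : ∀ q : P, ∃ t, q.1 = some t ∧ ∃ c' ∈ R,
      (∀ o', c' o' ≠ 0 → wt p e l q.1 ≤ wt p e l o' ∧ lev e q.1 ≤ lev e o') ∧
        ∀ o', wt p e l o' = wt p e l q.1 → c' o' = c q.1 q.2 o' := by
    intro q
    refine hLIFT p k κ T e R Ix fx cx l z hSat hSp hz hv (c q.1 q.2) (hcR q.1 q.2) q.1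
      (hco q.1 q.2) ?_
    intro o' ho'
    apply hkey
    by_contra hlt
    exact ho' (hc0 q.1 q.2 o' (not_le.1 hlt))
  choose t ht c' hc'R hc'1 hc'2 using hlift
  let v : P → T → κ := fun q => gW p e (e (t q)) (wt p e l q.1) (c' q) l z
  have hspan : ∀ q, v q ∈ Submodule.span κ (Set.range fun i => gL p e (fx i) (cx i) l z) := by
    intro q
    refine hSPAN p k κ T e R Ix fx cx l z hSp (e (t q)) ⟨t q, rfl⟩ (wt p e l q.1) (c' q) (hc'R q)
      ?_ (fun o ho => (hc'1 q o ho).1)
    intro t' ht'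
    have h1 := (hc'1 q (some t') ht').2
    rw [ht q] at h1
    have h2 : ((e (t q) : ℕ∞)) ≤ (e t' : ℕ∞) := h1
    exact_mod_cast h2
  have hrt : ∀ (f : ℕ) (a : k), a ≠ 0 → algebraMap k κ (rt p f a) ≠ 0 := by
    intro f a ha h
    rw [map_eq_zero] at h
    unfold rt at h
    rw [EmbeddingLike.map_eq_zero_iff] at h
    exact ha h
  have hne : ∀ q, v q (t q) ≠ 0 := by
    intro q
    have h1 : wt p e l (some (t q)) = wt p e l q.1 := by rw [← ht q]
    change gW p e (e (t q)) (wt p e l q.1) (c' q) l z (t q) ≠ 0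
    unfold gW
    rw [if_pos ⟨h1, rfl⟩]
    apply mul_ne_zero _ (hz _)
    apply hrt
    rw [hc'2 q _ h1, ← ht q]
    exact hco q.1 q.2
  have hzero : ∀ q q' : P, key q'.1 < key q.1 → v q (t q') = 0 := by
    intro q q' h
    change gW p e (e (t q)) (wt p e l q.1) (c' q) l z (t q') = 0
    unfold gW
    split_ifs with h1
    · have h2 : c' q (some (t q')) = 0 := by
        rw [hc'2 q _ h1.1, ← ht q']
        exact hc0 q.1 q.2 q'.1 h
      rw [h2]
      unfold rt
      rw [map_zero, map_zero, zero_mul]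
    · rfl
  have hli : LinearIndependent κ v :=
    hECH κ T P (ℤ ×ₗ (ℕ∞ ×ₗ ℕ)) (fun q => key q.1) t v
      (fun a b h => Subtype.ext (hinj h)) hne hzero
  let S := Submodule.span κ (Set.range fun i => gL p e (fx i) (cx i) l z)
  let v' : P → S := fun q => ⟨v q, hspan q⟩
  have hli' : LinearIndependent κ v' := LinearIndependent.of_comp S.subtype hli
  have hcard := hli'.fintype_card_le_finrank
  rw [Fintype.card_coe] at hcard
  exact hPc.trans hcard

end Pool.Agent.N456.FL
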